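import Mathlib

/-!
# MP_1f2761, `k = 2`: definitions for section 2 of the analysis page (Fejer cells)
-/

set_option autoImplicit false

namespace Pool.K2

open Finset Complex

/-- `e(x) = exp(2 π i x)`. -/
noncomputable def ex (x : ℝ) : ℂ := Complex.exp (2 * Real.pi * x * Complex.I)

/-- The Fejer kernel `P⁻² |∑_{j<P} e(jx)|²`. -/
noncomputable def fe (P : ℕ) (x : ℝ) : ℝ := ‖∑ j ∈ range P, ex (j * x)‖ ^ 2 / (P : ℝ) ^ 2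

/-- The distance to the nearest integer. -/
noncomputable def nn (x : ℝ) : ℝ := |x - round x|

/-- The constant `(π² / 4)²`. -/
noncomputable def c4 : ℝ := (Real.pi ^ 2 / 4) ^ 2

/-- The smoothing of `Om`. -/
noncomputable def omT (P : ℕ) (Om : ℕ → ℕ → ℝ) (x₁ x₂ : ℝ) : ℝ :=
  c4 * ∑ z₁ ∈ range P, ∑ z₂ ∈ range P,
    Om z₁ z₂ * (fe P (x₁ - ((z₁ : ℝ) + 1 / 2) / P) * fe P (x₂ - ((z₂ : ℝ) + 1 / 2) / P))

/-- The Fourier coefficients of `Om`. -/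
noncomputable def omd (P : ℕ) (Om : ℕ → ℕ → ℝ) (m₁ m₂ : ℤ) : ℂ :=
  (∑ z₁ ∈ range P, ∑ z₂ ∈ range P, (Om z₁ z₂ : ℂ) * ex (-((m₁ * z₁ + m₂ * z₂) / P))) / (P : ℂ) ^ 2

/-- The Fourier coefficients of `omT`. -/
noncomputable def omh (P : ℕ) (Om : ℕ → ℕ → ℝ) (m₁ m₂ : ℤ) : ℂ :=
  (c4 : ℂ) * omd P Om m₁ m₂ * ex (-((m₁ + m₂) / (2 * P))) *
    (((1 - |(m₁ : ℝ)| / P) * (1 - |(m₂ : ℝ)| / P) : ℝ) : ℂ)

/-- The normalised square norm. -/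
noncomputable def nrm (P : ℕ) (Om : ℕ → ℕ → ℝ) : ℝ :=
  (∑ z₁ ∈ range P, ∑ z₂ ∈ range P, Om z₁ z₂ ^ 2) / (P : ℝ) ^ 2

/-- `Om` is `(κ, C₀)`-regular: its average over every cell of level `i ≤ t` is at most
`C₀ q ^ (κ i)`. -/
def Reg (q t : ℕ) (κ C₀ : ℝ) (Om : ℕ → ℕ → ℝ) : Prop :=
  ∀ i ≤ t, ∀ a < q ^ i, ∀ b < q ^ i,
    ∑ z₁ ∈ range (q ^ (t - i)), ∑ z₂ ∈ range (q ^ (t - i)),
      Om (a * q ^ (t - i) + z₁) (b * q ^ (t - i) + z₂) ≤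
        C₀ * ((q : ℝ) ^ i) ^ κ * ((q : ℝ) ^ (t - i)) ^ 2

end Pool.K2
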