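import Pool.Agent.H42.K2.Cel

/-!
# MP_1f2761, `k = 2`: Parseval for the cells (section 2 of the analysis page, (2.5))
-/

set_option autoImplicit false

namespace Pool.K2

open Finset Complex

theorem ex_ne_one {x : ℝ} (h0 : x ≠ 0) (h1 : |x| < 1) : ex x ≠ 1 := by
  intro h
  have h2 := norm_ex_sub_one x
  rw [h, sub_self, norm_zero] at h2
  have h3 : Real.sin (Real.pi * x) = 0 := by
    have : |Real.sin (Real.pi * x)| = 0 := by linarith
    exact abs_eq_zero.mp this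
  rw [Real.sin_eq_zero_iff] at h3
  obtain ⟨n, hn⟩ := h3
  have h4 : (n : ℝ) = x := by
    have := Real.pi_pos
    have h5 : Real.pi * ((n : ℝ) - x) = 0 := by linarith
    rcases mul_eq_zero.mp h5 with h6 | h6
    · exact absurd h6 this.ne'
    · linarith
  rw [← h4] at h1 h0
  have h5 : |n| < 1 := by exact_mod_cast h1
  have h6 : n = 0 := Int.abs_lt_one_iff.mp h5
  exact h0 (by rw [h6]; simp)

theorem sum_ex_orth {P : ℕ} (hP : 1 ≤ P) {z w : ℕ} (hz : z < P) (hw : w < P) :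
    ∑ m ∈ range P, ex (-((m : ℝ) * z / P)) * (starRingEnd ℂ) (ex (-((m : ℝ) * w / P))) =
      if z = w then (P : ℂ) else 0 := by
  have hP' : (P : ℝ) ≠ 0 := by
    have : P ≠ 0 := by omega
    exact_mod_cast this
  have hP0 : (0 : ℝ) < P := by exact_mod_cast hP
  have h1 : ∀ m ∈ range P, ex (-((m : ℝ) * z / P)) * (starRingEnd ℂ) (ex (-((m : ℝ) * w / P))) =
      ex (((w : ℝ) - z) / P) ^ m := by
    intro m _
    rw [← ex_neg, ← ex_add, ← ex_nat_mul]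
    congr 1
    ring
  rw [Finset.sum_congr rfl h1]
  split_ifs with h
  · subst h
    simp [ex_zero]
  · have hr : ex (((w : ℝ) - z) / P) ≠ 1 := by
      refine ex_ne_one ?_ ?_
      · refine div_ne_zero ?_ hP'
        intro h2
        apply h
        have : (w : ℝ) = z := by linarith
        exact_mod_cast this.symm
      · rw [abs_div, abs_of_pos hP0, div_lt_one hP0, abs_lt]
        have h3 : (z : ℝ) < P := by exact_mod_cast hz
        have h4 : (w : ℝ) < P := by exact_mod_cast hw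
        have h5 : (0 : ℝ) ≤ z := Nat.cast_nonneg z
        have h6 : (0 : ℝ) ≤ w := Nat.cast_nonneg w
        constructor <;> linarith
    have h2 : ex (((w : ℝ) - z) / P) ^ P = 1 := by
      rw [← ex_nat_mul]
      have : (P : ℝ) * (((w : ℝ) - z) / P) = (((w : ℤ) - z : ℤ) : ℝ) := by
        push_cast
        field_simp
      rw [this, ex_int]
    rw [geom_sum_eq hr, h2, sub_self, zero_div]

/-- Parseval modulo `P`. -/
theorem parseval_one {P : ℕ} (hP : 1 ≤ P) (f : ℕ → ℂ) :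
    ∑ m ∈ range P, ‖∑ z ∈ range P, f z * ex (-((m : ℝ) * z / P))‖ ^ 2 =
      P * ∑ z ∈ range P, ‖f z‖ ^ 2 := by
  have h1 : ((∑ m ∈ range P, ‖∑ z ∈ range P, f z * ex (-((m : ℝ) * z / P))‖ ^ 2 : ℝ) : ℂ) =
      ((P * ∑ z ∈ range P, ‖f z‖ ^ 2 : ℝ) : ℂ) := by
    have e1 : ∀ m : ℕ, ((‖∑ z ∈ range P, f z * ex (-((m : ℝ) * z / P))‖ ^ 2 : ℝ) : ℂ) =
        ∑ z ∈ range P, ∑ w ∈ range P, f z * (starRingEnd ℂ) (f w) *
          (ex (-((m : ℝ) * z / P)) * (starRingEnd ℂ) (ex (-((m : ℝ) * w / P)))) := by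
      intro m
      have e0 : ((‖∑ z ∈ range P, f z * ex (-((m : ℝ) * z / P))‖ ^ 2 : ℝ) : ℂ) =
          (∑ z ∈ range P, f z * ex (-((m : ℝ) * z / P))) *
            (starRingEnd ℂ) (∑ z ∈ range P, f z * ex (-((m : ℝ) * z / P))) := by
        rw [Complex.mul_conj, Complex.normSq_eq_norm_sq]
      rw [e0, map_sum, Finset.sum_mul_sum]
      refine Finset.sum_congr rfl fun z _ => Finset.sum_congr rfl fun w _ => ?_
      rw [map_mul]
      ring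
    rw [Complex.ofReal_sum, Finset.sum_congr rfl fun m _ => e1 m, Finset.sum_comm]
    rw [Complex.ofReal_mul, Complex.ofReal_sum, Finset.mul_sum]
    refine Finset.sum_congr rfl fun z hz => ?_
    rw [Finset.sum_comm, Finset.sum_eq_single z]
    · rw [← Finset.mul_sum, sum_ex_orth hP (mem_range.mp hz) (mem_range.mp hz), if_pos rfl]
      rw [Complex.mul_conj, Complex.normSq_eq_norm_sq]
      push_cast
      ring
    · intro w hw hne
      rw [← Finset.mul_sum, sum_ex_orth hP (mem_range.mp hz) (mem_range.mp hw),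
        if_neg (fun h => hne h.symm), mul_zero]
    · intro h
      exact absurd hz h
  exact_mod_cast h1

/-- (2.5): Parseval. -/
theorem parseval {P : ℕ} (hP : 1 ≤ P) (Om : ℕ → ℕ → ℝ) :
    ∑ m₁ ∈ range P, ∑ m₂ ∈ range P, ‖omd P Om m₁ m₂‖ ^ 2 = nrm P Om := by
  have hP0 : (0 : ℝ) < P := by exact_mod_cast hP
  have h1 : ∀ m₁ m₂ : ℕ, ‖omd P Om m₁ m₂‖ ^ 2 = ‖∑ z₁ ∈ range P,
      (∑ z₂ ∈ range P, (Om z₁ z₂ : ℂ) * ex (-((m₂ : ℝ) * z₂ / P))) *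
        ex (-((m₁ : ℝ) * z₁ / P))‖ ^ 2 / (P : ℝ) ^ 4 := by
    intro m₁ m₂
    unfold omd
    rw [norm_div, norm_pow, Complex.norm_natCast, div_pow]
    congr 1
    · congr 2
      refine Finset.sum_congr rfl fun z₁ _ => ?_
      rw [Finset.sum_mul]
      refine Finset.sum_congr rfl fun z₂ _ => ?_
      rw [mul_assoc, ← ex_add]
      congr 2
      push_cast
      ring
    · ring
  rw [Finset.sum_comm]
  have h2 : ∀ m₂ ∈ range P, ∑ m₁ ∈ range P, ‖omd P Om m₁ m₂‖ ^ 2 =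
      (∑ z₁ ∈ range P, ‖∑ z₂ ∈ range P, (Om z₁ z₂ : ℂ) * ex (-((m₂ : ℝ) * z₂ / P))‖ ^ 2) /
        (P : ℝ) ^ 3 := by
    intro m₂ _
    rw [Finset.sum_congr rfl fun m₁ _ => h1 m₁ m₂, ← Finset.sum_div, parseval_one hP]
    rw [div_eq_div_iff (by positivity) (by positivity)]
    ring
  rw [Finset.sum_congr rfl h2, ← Finset.sum_div, Finset.sum_comm]
  have h3 : ∀ z₁ ∈ range P, ∑ m₂ ∈ range P,
      ‖∑ z₂ ∈ range P, (Om z₁ z₂ : ℂ) * ex (-((m₂ : ℝ) * z₂ / P))‖ ^ 2 =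
      P * ∑ z₂ ∈ range P, Om z₁ z₂ ^ 2 := by
    intro z₁ _
    rw [parseval_one hP]
    congr 1
    refine Finset.sum_congr rfl fun z₂ _ => ?_
    rw [Complex.norm_real, Real.norm_eq_abs, sq_abs]
  rw [Finset.sum_congr rfl h3, ← Finset.mul_sum]
  unfold nrm
  rw [div_eq_div_iff (by positivity) (by positivity)]
  ring

theorem omd_add₁ (P : ℕ) (hP : 1 ≤ P) (Om : ℕ → ℕ → ℝ) (m₁ m₂ : ℤ) :
    omd P Om (m₁ + P) m₂ = omd P Om m₁ m₂ := by
  have hP' : (P : ℝ) ≠ 0 := by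
    have : P ≠ 0 := by omega
    exact_mod_cast this
  unfold omd
  congr 1
  refine Finset.sum_congr rfl fun z₁ _ => Finset.sum_congr rfl fun z₂ _ => ?_
  congr 1
  have : (-((((m₁ + P : ℤ) : ℝ) * z₁ + m₂ * z₂) / P)) =
      -(((m₁ : ℝ) * z₁ + m₂ * z₂) / P) + ((-(z₁ : ℤ) : ℤ) : ℝ) := by
    push_cast
    field_simp
    ring
  rw [this, ex_add_int]

theorem omd_add₂ (P : ℕ) (hP : 1 ≤ P) (Om : ℕ → ℕ → ℝ) (m₁ m₂ : ℤ) :
    omd P Om m₁ (m₂ + P) = omd P Om m₁ m₂ := by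
  have hP' : (P : ℝ) ≠ 0 := by
    have : P ≠ 0 := by omega
    exact_mod_cast this
  unfold omd
  congr 1
  refine Finset.sum_congr rfl fun z₁ _ => Finset.sum_congr rfl fun z₂ _ => ?_
  congr 1
  have : (-(((m₁ : ℝ) * z₁ + ((m₂ + P : ℤ) : ℝ) * z₂) / P)) =
      -(((m₁ : ℝ) * z₁ + m₂ * z₂) / P) + ((-(z₂ : ℤ) : ℤ) : ℝ) := by
    push_cast
    field_simp
    ring
  rw [this, ex_add_int]

/-- Sums over `Ioo (-P) P` of a periodic nonnegative function. -/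
theorem sum_Ioo_le {P : ℕ} (φ : ℤ → ℝ) (h0 : ∀ m, 0 ≤ φ m) (hper : ∀ m, φ (m + P) = φ m) :
    ∑ m ∈ Ioo (-(P : ℤ)) P, φ m ≤ 2 * ∑ m ∈ range P, φ m := by
  have h1 : Ioo (-(P : ℤ)) P ⊆ Ico (-(P : ℤ)) 0 ∪ Ico 0 (P : ℤ) := by
    intro n hn
    simp only [mem_union, mem_Ioo, mem_Ico] at hn ⊢
    omega
  have hd : Disjoint (Ico (-(P : ℤ)) 0) (Ico 0 (P : ℤ)) := by
    rw [Finset.disjoint_left]
    intro n h5 h6
    simp only [mem_Ico] at h5 h6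
    omega
  have h2 : ∑ m ∈ Ico (-(P : ℤ)) 0, φ m = ∑ m ∈ range P, φ m := by
    refine Finset.sum_nbij' (fun n : ℤ => (n + P).toNat) (fun j : ℕ => (j : ℤ) - P) ?_ ?_ ?_ ?_ ?_
    · intro n hn
      simp only [mem_range, mem_Ico] at hn ⊢
      omega
    · intro j hj
      simp only [mem_range, mem_Ico] at hj ⊢
      omega
    · intro n hn
      simp only [mem_Ico] at hn
      omega
    · intro j hj
      simp
    · intro n hn
      simp only [mem_Ico] at hn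
      rw [Int.toNat_of_nonneg (by omega), hper]
  have h3 : ∑ m ∈ Ico 0 (P : ℤ), φ m = ∑ m ∈ range P, φ m := by
    refine Finset.sum_nbij' (fun n : ℤ => n.toNat) (fun j : ℕ => (j : ℤ)) ?_ ?_ ?_ ?_ ?_
    · intro n hn
      simp only [mem_range, mem_Ico] at hn ⊢
      omega
    · intro j hj
      simp only [mem_range, mem_Ico] at hj ⊢
      omega
    · intro n hn
      simp only [mem_Ico] at hn
      omega
    · intro j hj
      simp
    · intro n hn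
      simp only [mem_Ico] at hn
      rw [Int.toNat_of_nonneg hn.1]
  calc ∑ m ∈ Ioo (-(P : ℤ)) P, φ m ≤ ∑ m ∈ Ico (-(P : ℤ)) 0 ∪ Ico 0 (P : ℤ), φ m :=
        Finset.sum_le_sum_of_subset_of_nonneg h1 fun m _ _ => h0 m
    _ = 2 * ∑ m ∈ range P, φ m := by
        rw [Finset.sum_union hd, h2, h3]
        ring

/-- (2.5): the coefficients of `omT`. -/
theorem omh_sq {P : ℕ} (hP : 1 ≤ P) (Om : ℕ → ℕ → ℝ) :
    ∑ m₁ ∈ Ioo (-(P : ℤ)) P, ∑ m₂ ∈ Ioo (-(P : ℤ)) P, ‖omh P Om m₁ m₂‖ ^ 2 ≤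
      4 * c4 ^ 2 * nrm P Om := by
  have hP0 : (0 : ℝ) < P := by exact_mod_cast hP
  have hw : ∀ m ∈ Ioo (-(P : ℤ)) P, 0 ≤ 1 - |(m : ℝ)| / P ∧ 1 - |(m : ℝ)| / P ≤ 1 := by
    intro m hm
    simp only [mem_Ioo] at hm
    have h1 : |m| < P := abs_lt.mpr hm
    have h2 : |(m : ℝ)| < P := by exact_mod_cast h1
    have h3 : |(m : ℝ)| / P ≤ 1 := by
      rw [div_le_one hP0]
      exact h2.le
    have h4 : 0 ≤ |(m : ℝ)| / P := by positivity
    constructor <;> linarith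
  have h1 : ∀ m₁ ∈ Ioo (-(P : ℤ)) P, ∀ m₂ ∈ Ioo (-(P : ℤ)) P,
      ‖omh P Om m₁ m₂‖ ^ 2 ≤ c4 ^ 2 * ‖omd P Om m₁ m₂‖ ^ 2 := by
    intro m₁ hm₁ m₂ hm₂
    unfold omh
    rw [norm_mul, norm_mul, norm_mul, ex_norm, Complex.norm_real, Complex.norm_real,
      Real.norm_eq_abs, Real.norm_eq_abs, abs_of_pos c4_pos, mul_one,
      abs_of_nonneg (mul_nonneg (hw m₁ hm₁).1 (hw m₂ hm₂).1), ← mul_pow]
    refine pow_le_pow_left₀ ?_ ?_ 2
    · have := c4_pos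
      have := mul_nonneg (hw m₁ hm₁).1 (hw m₂ hm₂).1
      positivity
    · have h2 : (1 - |(m₁ : ℝ)| / P) * (1 - |(m₂ : ℝ)| / P) ≤ 1 :=
        mul_le_one₀ (hw m₁ hm₁).2 (hw m₂ hm₂).1 (hw m₂ hm₂).2
      have h3 : 0 ≤ c4 * ‖omd P Om m₁ m₂‖ := mul_nonneg c4_pos.le (norm_nonneg _)
      calc c4 * ‖omd P Om m₁ m₂‖ * ((1 - |(m₁ : ℝ)| / P) * (1 - |(m₂ : ℝ)| / P))
          ≤ c4 * ‖omd P Om m₁ m₂‖ * 1 := mul_le_mul_of_nonneg_left h2 h3
        _ = _ := mul_one _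
  calc ∑ m₁ ∈ Ioo (-(P : ℤ)) P, ∑ m₂ ∈ Ioo (-(P : ℤ)) P, ‖omh P Om m₁ m₂‖ ^ 2
      ≤ ∑ m₁ ∈ Ioo (-(P : ℤ)) P, ∑ m₂ ∈ Ioo (-(P : ℤ)) P, c4 ^ 2 * ‖omd P Om m₁ m₂‖ ^ 2 :=
        Finset.sum_le_sum fun m₁ hm₁ => Finset.sum_le_sum fun m₂ hm₂ => h1 m₁ hm₁ m₂ hm₂
    _ = c4 ^ 2 * ∑ m₁ ∈ Ioo (-(P : ℤ)) P, ∑ m₂ ∈ Ioo (-(P : ℤ)) P, ‖omd P Om m₁ m₂‖ ^ 2 := by
        rw [Finset.mul_sum]
        refine Finset.sum_congr rfl fun m₁ _ => ?_
        rw [Finset.mul_sum]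
    _ ≤ c4 ^ 2 * (2 * ∑ m₁ ∈ range P, (2 * ∑ m₂ ∈ range P, ‖omd P Om m₁ m₂‖ ^ 2)) := by
        refine mul_le_mul_of_nonneg_left ?_ (by positivity)
        refine (sum_Ioo_le (fun m₁ => ∑ m₂ ∈ Ioo (-(P : ℤ)) P, ‖omd P Om m₁ m₂‖ ^ 2)
          (fun m => Finset.sum_nonneg fun _ _ => by positivity) ?_).trans ?_
        · intro m
          refine Finset.sum_congr rfl fun m₂ _ => ?_
          rw [omd_add₁ P hP]
        · refine mul_le_mul_of_nonneg_left ?_ (by norm_num)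
          refine Finset.sum_le_sum fun m₁ _ => ?_
          refine sum_Ioo_le (fun m₂ => ‖omd P Om m₁ m₂‖ ^ 2) (fun m => by positivity) ?_
          intro m
          rw [omd_add₂ P hP]
    _ = 4 * c4 ^ 2 * nrm P Om := by
        rw [← parseval hP, ← Finset.mul_sum]
        ring

end Pool.K2
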