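import Pool.Agent.H42.K2.Par

/-!
# MP_1f2761, `k = 2`: the scale bound (section 2 of the analysis page, (2.6))
-/

set_option autoImplicit false

namespace Pool.K2

open Finset Complex

/-! ### The sum of the kernel over the cells of a level -/

/-- `1` at `0` and `1 / (16 j²)` at `j ≥ 1`. -/
noncomputable def ph (j : ℕ) : ℝ := if j = 0 then 1 else 1 / (16 * (j : ℝ) ^ 2)

theorem ph_nonneg (j : ℕ) : 0 ≤ ph j := by
  unfold ph
  split_ifs <;> positivity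

theorem sum_ph (n : ℕ) : ∑ j ∈ range n, ph j ≤ 9 / 8 := by
  have key : ∀ k : ℕ, ∑ j ∈ range (k + 2), ph j ≤ 9 / 8 - 1 / (16 * ((k : ℝ) + 1)) := by
    intro k
    induction k with
    | zero =>
      rw [Finset.sum_range_succ, Finset.sum_range_succ, Finset.sum_range_zero]
      unfold ph
      norm_num
    | succ n ih =>
      rw [Finset.sum_range_succ]
      have h1 : ph (n + 2) = 1 / (16 * ((n : ℝ) + 2) ^ 2) := by
        unfold ph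
        rw [if_neg (by omega)]
        push_cast
        rfl
      rw [h1]
      have hn : (0 : ℝ) ≤ n := Nat.cast_nonneg n
      have h2 : 1 / (16 * ((n : ℝ) + 2) ^ 2) ≤
          1 / (16 * ((n : ℝ) + 1)) - 1 / (16 * (((n + 1 : ℕ) : ℝ) + 1)) := by
        push_cast
        rw [div_sub_div _ _ (by positivity) (by positivity), div_le_div_iff₀ (by positivity)
          (by positivity)]
        nlinarith [mul_nonneg hn hn, mul_nonneg hn (mul_nonneg hn hn)]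
      linarith
  rcases Nat.lt_or_ge n 2 with h | h
  · calc ∑ j ∈ range n, ph j ≤ ∑ j ∈ range 2, ph j :=
          Finset.sum_le_sum_of_subset_of_nonneg (Finset.range_mono h.le) fun j _ _ => ph_nonneg j
      _ ≤ 9 / 8 := by
          have := key 0
          norm_num at this ⊢
          linarith
  · obtain ⟨k, rfl⟩ : ∃ k, n = k + 2 := ⟨n - 2, by omega⟩
    have h1 := key k
    have h2 : 0 ≤ 1 / (16 * ((k : ℝ) + 1)) := by positivity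
    linarith

/-- `ph (k - 1)` for `k ≥ 1`, and `1` at `0`. -/
noncomputable def al (k : ℕ) : ℝ := if k = 0 then 1 else ph (k - 1)

theorem al_nonneg (k : ℕ) : 0 ≤ al k := by
  unfold al
  split_ifs
  · exact zero_le_one
  · exact ph_nonneg _

theorem sum_al (n : ℕ) : ∑ j ∈ range n, al j ≤ 17 / 8 := by
  rcases Nat.eq_zero_or_pos n with h | h
  · subst h
    norm_num
  · obtain ⟨k, rfl⟩ : ∃ k, n = k + 1 := ⟨n - 1, by omega⟩
    rw [Finset.sum_range_succ']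
    have h1 : ∑ j ∈ range k, al (j + 1) = ∑ j ∈ range k, ph j := by
      refine Finset.sum_congr rfl fun j _ => ?_
      unfold al
      rw [if_neg (by omega), Nat.add_sub_cancel]
    have h2 : al 0 = 1 := if_pos rfl
    have h3 := sum_ph k
    rw [h1, h2]
    linarith

/-- The bound for the cell at distance `k`. -/
noncomputable def hk (Q k : ℕ) : ℝ := al k + ph (Q - 1 - k)

theorem hk_nonneg (Q k : ℕ) : 0 ≤ hk Q k := add_nonneg (al_nonneg _) (ph_nonneg _)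

theorem hk_symm {Q k : ℕ} (h1 : 1 ≤ k) (h2 : k + 1 ≤ Q) : hk Q (Q - k) = hk Q k := by
  unfold hk al
  rw [if_neg (by omega), if_neg (by omega), show Q - k - 1 = Q - 1 - k by omega,
    show Q - 1 - (Q - k) = k - 1 by omega, add_comm]

theorem sum_hk (Q : ℕ) : ∑ k ∈ range Q, hk Q k ≤ 13 / 4 := by
  unfold hk
  rw [Finset.sum_add_distrib]
  have h1 := sum_al Q
  have h2 : ∑ k ∈ range Q, ph (Q - 1 - k) = ∑ k ∈ range Q, ph k := Finset.sum_range_reflect ph Q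
  have h3 := sum_ph Q
  rw [h2]
  linarith

/-- The distance of two naturals. -/
def ds (a b : ℕ) : ℕ := (a - b) + (b - a)

theorem sum_ds {Q a₀ : ℕ} (h : a₀ < Q) : ∑ a ∈ range Q, hk Q (ds a a₀) ≤ 13 / 4 := by
  refine le_trans (le_of_eq ?_) (sum_hk Q)
  rw [Finset.range_eq_Ico, ← Finset.sum_Ico_consecutive (fun a => hk Q (ds a a₀))
    (Nat.zero_le (a₀ + 1)) (by omega : a₀ + 1 ≤ Q),
    ← Finset.sum_Ico_consecutive (fun k => hk Q k) (Nat.zero_le (a₀ + 1)) (by omega : a₀ + 1 ≤ Q)]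
  congr 1
  · refine Finset.sum_nbij' (fun a => a₀ - a) (fun k => a₀ - k) ?_ ?_ ?_ ?_ ?_
    · intro a ha
      simp only [mem_Ico] at ha ⊢
      omega
    · intro a ha
      simp only [mem_Ico] at ha ⊢
      omega
    · intro a ha
      simp only [mem_Ico] at ha
      omega
    · intro a ha
      simp only [mem_Ico] at ha
      omega
    · intro a ha
      simp only [mem_Ico] at ha
      congr 1
      unfold ds
      omega
  · refine Finset.sum_nbij' (fun a => Q - (a - a₀)) (fun k => a₀ + (Q - k)) ?_ ?_ ?_ ?_ ?_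
    · intro a ha
      simp only [mem_Ico] at ha ⊢
      omega
    · intro a ha
      simp only [mem_Ico] at ha ⊢
      omega
    · intro a ha
      simp only [mem_Ico] at ha
      omega
    · intro a ha
      simp only [mem_Ico] at ha
      omega
    · intro a ha
      simp only [mem_Ico] at ha
      have e : ds a a₀ = a - a₀ := by
        unfold ds
        omega
      rw [e, hk_symm (by omega) (by omega)]

theorem fe_ph {Q : ℕ} {x : ℝ} (s : ℕ) (hs : (s : ℝ) ≤ Q * nn x) : fe (2 * Q) x ≤ ph s := by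
  unfold ph
  split_ifs with h
  · exact fe_le_one _ _
  · have hs0 : (0 : ℝ) < s := by
      have : 0 < s := Nat.pos_of_ne_zero h
      exact_mod_cast this
    have h1 := fe_le (2 * Q) x
    push_cast at h1
    rw [le_div_iff₀ (by positivity)]
    have h2 : 16 * (s : ℝ) ^ 2 ≤ (2 * (2 * Q) * nn x) ^ 2 := by
      have h3 : (4 * (s : ℝ)) ^ 2 ≤ (4 * (Q * nn x)) ^ 2 :=
        pow_le_pow_left₀ (by positivity) (by linarith) 2
      calc 16 * (s : ℝ) ^ 2 = (4 * (s : ℝ)) ^ 2 := by ring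
        _ ≤ (4 * (Q * nn x)) ^ 2 := h3
        _ = _ := by ring
    calc fe (2 * Q) x * (16 * (s : ℝ) ^ 2) ≤ fe (2 * Q) x * (2 * (2 * Q) * nn x) ^ 2 :=
          mul_le_mul_of_nonneg_left h2 (fe_nonneg _ _)
      _ ≤ 1 := h1

/-- The Fejer kernel of order `2 Q` on the cells of side `1 / Q`. -/
theorem cell_ker {Q R : ℕ} (hQ : 1 ≤ Q) (hR : 1 ≤ R) {z a y : ℕ} (hz : z < Q * R) (ha : a < Q)
    (hy : y < R) :
    fe (2 * Q) ((((a * R + y : ℕ) : ℝ) - z) / ((Q * R : ℕ) : ℝ)) ≤ hk Q (ds a (z / R)) := by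
  set a₀ := z / R with ha₀
  set y₀ := z % R with hy₀
  have hz' : z = a₀ * R + y₀ := by
    rw [ha₀, hy₀, mul_comm]
    exact (Nat.div_add_mod z R).symm
  have ha₀Q : a₀ < Q := by
    rw [ha₀]
    exact Nat.div_lt_of_lt_mul (by rwa [mul_comm] at hz)
  have hy₀R : y₀ < R := Nat.mod_lt _ (by omega)
  have hQ0 : (0 : ℝ) < Q := by exact_mod_cast hQ
  have hR0 : (0 : ℝ) < R := by exact_mod_cast hR
  set θ : ℝ := ((y : ℝ) - y₀) / R with hθ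
  have hθ1 : |θ| < 1 := by
    rw [hθ, abs_div, abs_of_pos hR0, div_lt_one hR0, abs_lt]
    have h3 : (y : ℝ) < R := by exact_mod_cast hy
    have h4 : (y₀ : ℝ) < R := by exact_mod_cast hy₀R
    have h5 : (0 : ℝ) ≤ y := Nat.cast_nonneg y
    have h6 : (0 : ℝ) ≤ y₀ := Nat.cast_nonneg y₀
    constructor <;> linarith
  set x : ℝ := (((a * R + y : ℕ) : ℝ) - z) / ((Q * R : ℕ) : ℝ) with hx
  have hxQ : (Q : ℝ) * x = ((a : ℝ) - a₀) + θ := by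
    rw [hx, hθ, hz']
    push_cast
    field_simp
    ring
  have hds : ((ds a a₀ : ℕ) : ℝ) = |(a : ℝ) - a₀| := by
    unfold ds
    rcases le_total a a₀ with h | h
    · have h1 : (a : ℝ) ≤ a₀ := by exact_mod_cast h
      rw [abs_of_nonpos (by linarith), Nat.sub_eq_zero_of_le h, zero_add, Nat.cast_sub h]
      ring
    · have h1 : (a₀ : ℝ) ≤ a := by exact_mod_cast h
      rw [abs_of_nonneg (by linarith), Nat.sub_eq_zero_of_le h, add_zero, Nat.cast_sub h]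
  have hD : ds a a₀ + 1 ≤ Q := by
    clear_value a₀
    unfold ds
    omega
  have hlow : ((ds a a₀ : ℕ) : ℝ) - 1 ≤ Q * |x| := by
    have h1 : (Q : ℝ) * |x| = |((a : ℝ) - a₀) + θ| := by
      rw [← hxQ, abs_mul, abs_of_pos hQ0]
    rw [h1, hds]
    have h2 := abs_sub_abs_le_abs_sub ((a : ℝ) - a₀) (-θ)
    rw [abs_neg, sub_neg_eq_add] at h2
    linarith
  have hup : (Q : ℝ) * |x| ≤ ((ds a a₀ : ℕ) : ℝ) + 1 := by
    have h1 : (Q : ℝ) * |x| = |((a : ℝ) - a₀) + θ| := by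
      rw [← hxQ, abs_mul, abs_of_pos hQ0]
    rw [h1, hds]
    have h2 := abs_add_le ((a : ℝ) - a₀) θ
    linarith
  unfold hk
  by_cases hn : round x = 0
  · have h1 : nn x = |x| := by
      unfold nn
      rw [hn, Int.cast_zero, sub_zero]
    have h2 : fe (2 * Q) x ≤ al (ds a a₀) := by
      unfold al
      split_ifs with h
      · exact fe_le_one _ _
      · refine fe_ph _ ?_
        rw [h1, Nat.cast_sub (by omega), Nat.cast_one]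
        exact hlow
    have := ph_nonneg (Q - 1 - ds a a₀)
    linarith
  · have h1 : (((Q - 1 - ds a a₀ : ℕ)) : ℝ) ≤ Q * nn x := by
      have e : Q - 1 - ds a a₀ = Q - (ds a a₀ + 1) := by omega
      rw [e, Nat.cast_sub hD]
      push_cast
      have h2 : 1 ≤ |(round x : ℝ)| := by
        have : 1 ≤ |round x| := Int.one_le_abs hn
        exact_mod_cast this
      have h3 : |(round x : ℝ)| - |x| ≤ nn x := by
        unfold nn
        rw [abs_sub_comm]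
        exact abs_sub_abs_le_abs_sub _ _
      have h4 : (Q : ℝ) * (1 - |x|) ≤ Q * nn x := by
        refine mul_le_mul_of_nonneg_left ?_ hQ0.le
        linarith
      linarith
    have h2 := fe_ph (Q - 1 - ds a a₀) h1
    have := al_nonneg (ds a a₀)
    linarith

/-! ### Sums over the cells -/

theorem sum_cells (Q R : ℕ) (f : ℕ → ℝ) :
    ∑ z ∈ range (Q * R), f z = ∑ a ∈ range Q, ∑ y ∈ range R, f (a * R + y) := by
  induction Q with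
  | zero => simp
  | succ Q ih => rw [Nat.succ_mul, Finset.sum_range_add, ih, Finset.sum_range_succ]

theorem sum_cells₂ (Q R : ℕ) (f : ℕ → ℕ → ℝ) :
    ∑ z₁ ∈ range (Q * R), ∑ z₂ ∈ range (Q * R), f z₁ z₂ =
      ∑ a ∈ range Q, ∑ b ∈ range Q, ∑ y₁ ∈ range R, ∑ y₂ ∈ range R,
        f (a * R + y₁) (b * R + y₂) := by
  rw [sum_cells]
  refine Finset.sum_congr rfl fun a _ => ?_
  symm
  rw [Finset.sum_comm]
  refine Finset.sum_congr rfl fun y₁ _ => ?_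
  rw [sum_cells]

/-- The row sum of the kernel. -/
theorem row_le {Q R : ℕ} (hQ : 1 ≤ Q) (hR : 1 ≤ R) {Om : ℕ → ℕ → ℝ}
    (h0 : ∀ z₁ < Q * R, ∀ z₂ < Q * R, 0 ≤ Om z₁ z₂) {B : ℝ}
    (hB : ∀ a < Q, ∀ b < Q, ∑ y₁ ∈ range R, ∑ y₂ ∈ range R, Om (a * R + y₁) (b * R + y₂) ≤ B)
    {z₁ z₂ : ℕ} (hz₁ : z₁ < Q * R) (hz₂ : z₂ < Q * R) :
    ∑ w₁ ∈ range (Q * R), ∑ w₂ ∈ range (Q * R), Om w₁ w₂ *
      (fe (2 * Q) (((w₁ : ℝ) - z₁) / ((Q * R : ℕ) : ℝ)) *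
        fe (2 * Q) (((w₂ : ℝ) - z₂) / ((Q * R : ℕ) : ℝ))) ≤ 169 / 16 * B := by
  have hB0 : 0 ≤ B := by
    refine le_trans ?_ (hB 0 (by omega) 0 (by omega))
    refine Finset.sum_nonneg fun y₁ hy₁ => Finset.sum_nonneg fun y₂ hy₂ => ?_
    rw [mem_range] at hy₁ hy₂
    have hRQ : R ≤ Q * R := Nat.le_mul_of_pos_left R (by omega)
    refine h0 _ ?_ _ ?_ <;> omega
  have hlt : ∀ a < Q, ∀ y < R, a * R + y < Q * R := by
    intro a ha y hy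
    calc a * R + y < a * R + R := by omega
      _ = (a + 1) * R := by ring
      _ ≤ Q * R := Nat.mul_le_mul_right R ha
  have hz₁R : z₁ / R < Q := Nat.div_lt_of_lt_mul (by rwa [mul_comm] at hz₁)
  have hz₂R : z₂ / R < Q := Nat.div_lt_of_lt_mul (by rwa [mul_comm] at hz₂)
  rw [sum_cells₂]
  calc ∑ a ∈ range Q, ∑ b ∈ range Q, ∑ y₁ ∈ range R, ∑ y₂ ∈ range R,
        Om (a * R + y₁) (b * R + y₂) *
          (fe (2 * Q) ((((a * R + y₁ : ℕ) : ℝ) - z₁) / ((Q * R : ℕ) : ℝ)) *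
            fe (2 * Q) ((((b * R + y₂ : ℕ) : ℝ) - z₂) / ((Q * R : ℕ) : ℝ)))
      ≤ ∑ a ∈ range Q, ∑ b ∈ range Q, ∑ y₁ ∈ range R, ∑ y₂ ∈ range R,
        Om (a * R + y₁) (b * R + y₂) * (hk Q (ds a (z₁ / R)) * hk Q (ds b (z₂ / R))) := by
        refine Finset.sum_le_sum fun a ha => Finset.sum_le_sum fun b hb =>
          Finset.sum_le_sum fun y₁ hy₁ => Finset.sum_le_sum fun y₂ hy₂ => ?_
        rw [mem_range] at ha hb hy₁ hy₂
        refine mul_le_mul_of_nonneg_left ?_ (h0 _ (hlt a ha y₁ hy₁) _ (hlt b hb y₂ hy₂))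
        exact mul_le_mul (cell_ker hQ hR hz₁ ha hy₁) (cell_ker hQ hR hz₂ hb hy₂) (fe_nonneg _ _)
          (hk_nonneg _ _)
    _ = ∑ a ∈ range Q, ∑ b ∈ range Q, (hk Q (ds a (z₁ / R)) * hk Q (ds b (z₂ / R))) *
        ∑ y₁ ∈ range R, ∑ y₂ ∈ range R, Om (a * R + y₁) (b * R + y₂) := by
        refine Finset.sum_congr rfl fun a _ => Finset.sum_congr rfl fun b _ => ?_
        rw [Finset.mul_sum]
        refine Finset.sum_congr rfl fun y₁ _ => ?_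
        rw [Finset.mul_sum]
        refine Finset.sum_congr rfl fun y₂ _ => ?_
        ring
    _ ≤ ∑ a ∈ range Q, ∑ b ∈ range Q, (hk Q (ds a (z₁ / R)) * hk Q (ds b (z₂ / R))) * B := by
        refine Finset.sum_le_sum fun a ha => Finset.sum_le_sum fun b hb => ?_
        rw [mem_range] at ha hb
        exact mul_le_mul_of_nonneg_left (hB a ha b hb) (mul_nonneg (hk_nonneg _ _) (hk_nonneg _ _))
    _ = ((∑ a ∈ range Q, hk Q (ds a (z₁ / R))) * ∑ b ∈ range Q, hk Q (ds b (z₂ / R))) * B := by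
        rw [Finset.sum_mul_sum, Finset.sum_mul]
        refine Finset.sum_congr rfl fun a _ => ?_
        rw [Finset.sum_mul]
    _ ≤ (13 / 4 * (13 / 4)) * B := by
        refine mul_le_mul_of_nonneg_right ?_ hB0
        exact mul_le_mul (sum_ds hz₁R) (sum_ds hz₂R)
          (Finset.sum_nonneg fun _ _ => hk_nonneg _ _) (by norm_num)
    _ = 169 / 16 * B := by ring

/-! ### The quadratic form -/

/-- The weighted sum of the coefficients as a quadratic form. -/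
theorem quad_eq {P M : ℕ} (hP : 1 ≤ P) (hM : 1 ≤ M) (Om : ℕ → ℕ → ℝ) :
    ∑ m₁ ∈ Ioo (-(M : ℤ)) M, ∑ m₂ ∈ Ioo (-(M : ℤ)) M,
        (1 - |(m₁ : ℝ)| / M) * (1 - |(m₂ : ℝ)| / M) * ‖omd P Om m₁ m₂‖ ^ 2 =
      (M : ℝ) ^ 2 / (P : ℝ) ^ 4 * ∑ z₁ ∈ range P, ∑ z₂ ∈ range P, Om z₁ z₂ *
        ∑ w₁ ∈ range P, ∑ w₂ ∈ range P, Om w₁ w₂ *
          (fe M (((w₁ : ℝ) - z₁) / P) * fe M (((w₂ : ℝ) - z₂) / P)) := by
  have hP0 : (P : ℂ) ≠ 0 := by
    have : P ≠ 0 := by omega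
    exact_mod_cast this
  have hM0 : (M : ℂ) ≠ 0 := by
    have : M ≠ 0 := by omega
    exact_mod_cast this
  -- the square of one coefficient
  have h1 : ∀ m₁ m₂ : ℤ, ((‖omd P Om m₁ m₂‖ ^ 2 : ℝ) : ℂ) = (∑ z₁ ∈ range P, ∑ z₂ ∈ range P,
      ∑ w₁ ∈ range P, ∑ w₂ ∈ range P, (Om z₁ z₂ : ℂ) * (Om w₁ w₂ : ℂ) *
        (ex (m₁ * (((w₁ : ℝ) - z₁) / P)) * ex (m₂ * (((w₂ : ℝ) - z₂) / P)))) / (P : ℂ) ^ 4 := by
    intro m₁ m₂
    have e0 : ((‖omd P Om m₁ m₂‖ ^ 2 : ℝ) : ℂ) =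
        omd P Om m₁ m₂ * (starRingEnd ℂ) (omd P Om m₁ m₂) := by
      rw [Complex.mul_conj, Complex.normSq_eq_norm_sq]
    rw [e0]
    unfold omd
    rw [map_div₀, map_pow, Complex.conj_natCast, div_mul_div_comm, ← pow_add, map_sum,
      Finset.sum_mul]
    congr 1
    refine Finset.sum_congr rfl fun z₁ _ => ?_
    rw [Finset.sum_mul]
    refine Finset.sum_congr rfl fun z₂ _ => ?_
    rw [Finset.mul_sum]
    refine Finset.sum_congr rfl fun w₁ _ => ?_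
    rw [map_sum, Finset.mul_sum]
    refine Finset.sum_congr rfl fun w₂ _ => ?_
    rw [map_mul, Complex.conj_ofReal, ← ex_neg, ← ex_add]
    have e1 : (m₁ : ℝ) * (((w₁ : ℝ) - z₁) / P) + m₂ * (((w₂ : ℝ) - z₂) / P) =
        -(((m₁ : ℝ) * z₁ + m₂ * z₂) / P) + -(-(((m₁ : ℝ) * w₁ + m₂ * w₂) / P)) := by
      ring
    rw [e1, ex_add]
    ring
  -- the kernel
  have h2 : ∀ x : ℝ, ∑ m ∈ Ioo (-(M : ℤ)) M, ((1 - |(m : ℝ)| / M : ℝ) : ℂ) * ex (m * x) =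
      M * (fe M x : ℂ) := by
    intro x
    rw [fe_eq hM, mul_div_assoc', mul_div_cancel_left₀ _ hM0]
  have h3 : ((∑ m₁ ∈ Ioo (-(M : ℤ)) M, ∑ m₂ ∈ Ioo (-(M : ℤ)) M,
        (1 - |(m₁ : ℝ)| / M) * (1 - |(m₂ : ℝ)| / M) * ‖omd P Om m₁ m₂‖ ^ 2 : ℝ) : ℂ) =
      (((M : ℝ) ^ 2 / (P : ℝ) ^ 4 * ∑ z₁ ∈ range P, ∑ z₂ ∈ range P, Om z₁ z₂ *
        ∑ w₁ ∈ range P, ∑ w₂ ∈ range P, Om w₁ w₂ *
          (fe M (((w₁ : ℝ) - z₁) / P) * fe M (((w₂ : ℝ) - z₂) / P)) : ℝ) : ℂ) := by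
    have e1 : ((∑ m₁ ∈ Ioo (-(M : ℤ)) M, ∑ m₂ ∈ Ioo (-(M : ℤ)) M,
        (1 - |(m₁ : ℝ)| / M) * (1 - |(m₂ : ℝ)| / M) * ‖omd P Om m₁ m₂‖ ^ 2 : ℝ) : ℂ) =
        ∑ m₁ ∈ Ioo (-(M : ℤ)) M, ∑ m₂ ∈ Ioo (-(M : ℤ)) M, ∑ z₁ ∈ range P, ∑ z₂ ∈ range P,
          ∑ w₁ ∈ range P, ∑ w₂ ∈ range P, ((Om z₁ z₂ : ℂ) * (Om w₁ w₂ : ℂ) / (P : ℂ) ^ 4) *
            ((((1 - |(m₁ : ℝ)| / M : ℝ) : ℂ) * ex (m₁ * (((w₁ : ℝ) - z₁) / P))) *
              (((1 - |(m₂ : ℝ)| / M : ℝ) : ℂ) * ex (m₂ * (((w₂ : ℝ) - z₂) / P)))) := by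
      rw [Complex.ofReal_sum]
      refine Finset.sum_congr rfl fun m₁ _ => ?_
      rw [Complex.ofReal_sum]
      refine Finset.sum_congr rfl fun m₂ _ => ?_
      rw [Complex.ofReal_mul, h1, Complex.ofReal_mul, Finset.sum_div, Finset.mul_sum]
      refine Finset.sum_congr rfl fun z₁ _ => ?_
      rw [Finset.sum_div, Finset.mul_sum]
      refine Finset.sum_congr rfl fun z₂ _ => ?_
      rw [Finset.sum_div, Finset.mul_sum]
      refine Finset.sum_congr rfl fun w₁ _ => ?_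
      rw [Finset.sum_div, Finset.mul_sum]
      refine Finset.sum_congr rfl fun w₂ _ => ?_
      ring
    have e2 : ∀ z₁ z₂ w₁ w₂ : ℕ, ∑ m₁ ∈ Ioo (-(M : ℤ)) M, ∑ m₂ ∈ Ioo (-(M : ℤ)) M,
        ((Om z₁ z₂ : ℂ) * (Om w₁ w₂ : ℂ) / (P : ℂ) ^ 4) *
            ((((1 - |(m₁ : ℝ)| / M : ℝ) : ℂ) * ex (m₁ * (((w₁ : ℝ) - z₁) / P))) *
              (((1 - |(m₂ : ℝ)| / M : ℝ) : ℂ) * ex (m₂ * (((w₂ : ℝ) - z₂) / P)))) =
        ((Om z₁ z₂ : ℂ) * (Om w₁ w₂ : ℂ) / (P : ℂ) ^ 4) *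
          ((M * (fe M (((w₁ : ℝ) - z₁) / P) : ℂ)) * (M * (fe M (((w₂ : ℝ) - z₂) / P) : ℂ))) := by
      intro z₁ z₂ w₁ w₂
      rw [← h2, ← h2, Finset.sum_mul_sum, Finset.mul_sum]
      refine Finset.sum_congr rfl fun m₁ _ => ?_
      rw [Finset.mul_sum]
    rw [e1]
    -- bring the sums over `m₁`, `m₂` inside
    rw [Finset.sum_congr rfl fun m₁ _ => Finset.sum_comm, Finset.sum_comm]
    rw [Complex.ofReal_mul, Complex.ofReal_sum, Finset.mul_sum]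
    refine Finset.sum_congr rfl fun z₁ _ => ?_
    rw [Finset.sum_congr rfl fun m₁ _ => Finset.sum_comm, Finset.sum_comm]
    rw [Complex.ofReal_sum, Finset.mul_sum]
    refine Finset.sum_congr rfl fun z₂ _ => ?_
    rw [Finset.sum_congr rfl fun m₁ _ => Finset.sum_comm, Finset.sum_comm]
    rw [Complex.ofReal_mul, Complex.ofReal_sum, Finset.mul_sum, Finset.mul_sum]
    refine Finset.sum_congr rfl fun w₁ _ => ?_
    rw [Finset.sum_congr rfl fun m₁ _ => Finset.sum_comm, Finset.sum_comm]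
    rw [Complex.ofReal_sum, Finset.mul_sum, Finset.mul_sum]
    refine Finset.sum_congr rfl fun w₂ _ => ?_
    rw [e2]
    push_cast
    ring
  exact_mod_cast h3

/-! ### (2.6) -/

theorem reg_pos {q t : ℕ} {κ C₀ : ℝ} {Om : ℕ → ℕ → ℝ} (hR : Reg q t κ C₀ Om) :
    ∑ z₁ ∈ range (q ^ t), ∑ z₂ ∈ range (q ^ t), Om z₁ z₂ ≤ C₀ * ((q : ℝ) ^ t) ^ 2 := by
  have h := hR 0 (Nat.zero_le t) 0 (by simp) 0 (by simp)
  simpa using h

/-- (2.6), the norm. -/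
theorem nrm_le {q t : ℕ} (hq : 1 ≤ q) {κ C₀ : ℝ} {Om : ℕ → ℕ → ℝ}
    (h0 : ∀ z₁ < q ^ t, ∀ z₂ < q ^ t, 0 ≤ Om z₁ z₂) (hR : Reg q t κ C₀ Om) :
    nrm (q ^ t) Om ≤ C₀ ^ 2 * ((q : ℝ) ^ t) ^ κ := by
  have hq0 : (0 : ℝ) < (q : ℝ) ^ t := by
    have : (0 : ℝ) < q := by exact_mod_cast hq
    positivity
  have h1 : ∀ z₁ < q ^ t, ∀ z₂ < q ^ t, Om z₁ z₂ ≤ C₀ * ((q : ℝ) ^ t) ^ κ := by
    intro z₁ hz₁ z₂ hz₂
    have h := hR t le_rfl z₁ hz₁ z₂ hz₂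
    simpa using h
  have h2 := reg_pos hR
  have hpos : 0 < q ^ t := Nat.pos_of_ne_zero (by
    have : 0 < q := hq
    positivity)
  have hC : 0 ≤ C₀ * ((q : ℝ) ^ t) ^ κ := (h0 0 hpos 0 hpos).trans (h1 0 hpos 0 hpos)
  unfold nrm
  push_cast
  rw [div_le_iff₀ (by positivity)]
  calc ∑ z₁ ∈ range (q ^ t), ∑ z₂ ∈ range (q ^ t), Om z₁ z₂ ^ 2
      ≤ ∑ z₁ ∈ range (q ^ t), ∑ z₂ ∈ range (q ^ t), (C₀ * ((q : ℝ) ^ t) ^ κ) * Om z₁ z₂ := by
        refine Finset.sum_le_sum fun z₁ hz₁ => Finset.sum_le_sum fun z₂ hz₂ => ?_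
        rw [mem_range] at hz₁ hz₂
        rw [sq]
        exact mul_le_mul_of_nonneg_right (h1 z₁ hz₁ z₂ hz₂) (h0 z₁ hz₁ z₂ hz₂)
    _ = (C₀ * ((q : ℝ) ^ t) ^ κ) * ∑ z₁ ∈ range (q ^ t), ∑ z₂ ∈ range (q ^ t), Om z₁ z₂ := by
        rw [Finset.mul_sum]
        refine Finset.sum_congr rfl fun z₁ _ => ?_
        rw [Finset.mul_sum]
    _ ≤ (C₀ * ((q : ℝ) ^ t) ^ κ) * (C₀ * ((q : ℝ) ^ t) ^ 2) := mul_le_mul_of_nonneg_left h2 hC
    _ = C₀ ^ 2 * ((q : ℝ) ^ t) ^ κ * ((q : ℝ) ^ t) ^ 2 := by ring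

/-- (2.6), the scale bound. -/
theorem scale {q t i : ℕ} (hq : 1 ≤ q) (hi : i ≤ t) {κ C₀ : ℝ} {Om : ℕ → ℕ → ℝ}
    (h0 : ∀ z₁ < q ^ t, ∀ z₂ < q ^ t, 0 ≤ Om z₁ z₂) (hR : Reg q t κ C₀ Om) :
    ∑ m₁ ∈ Ioo (-(q ^ i : ℕ) : ℤ) (q ^ i : ℕ), ∑ m₂ ∈ Ioo (-(q ^ i : ℕ) : ℤ) (q ^ i : ℕ),
      ‖omd (q ^ t) Om m₁ m₂‖ ^ 2 ≤ 170 * C₀ ^ 2 * ((q : ℝ) ^ i) ^ κ := by
  obtain ⟨Q, hQ⟩ : ∃ Q, Q = q ^ i := ⟨_, rfl⟩
  obtain ⟨R, hR'⟩ : ∃ R, R = q ^ (t - i) := ⟨_, rfl⟩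
  have hQ1 : 1 ≤ Q := by
    rw [hQ]
    exact Nat.one_le_pow _ _ hq
  have hR1 : 1 ≤ R := by
    rw [hR']
    exact Nat.one_le_pow _ _ hq
  have hP : q ^ t = Q * R := by
    rw [hQ, hR', ← pow_add]
    congr 1
    omega
  have hQ0 : (0 : ℝ) < Q := by exact_mod_cast hQ1
  have hR0 : (0 : ℝ) < R := by exact_mod_cast hR1
  have hQr : ((q : ℝ) ^ i) = Q := by
    rw [hQ]
    push_cast
    rfl
  have hRr : ((q : ℝ) ^ (t - i)) = R := by
    rw [hR']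
    push_cast
    rfl
  have hPr : ((q : ℝ) ^ t) = Q * R := by
    have : ((q ^ t : ℕ) : ℝ) = ((Q * R : ℕ) : ℝ) := by rw [hP]
    push_cast at this
    exact this
  have hmass := reg_pos hR
  have hcell : ∀ a < Q, ∀ b < Q, ∑ y₁ ∈ range R, ∑ y₂ ∈ range R,
      Om (a * R + y₁) (b * R + y₂) ≤ C₀ * (Q : ℝ) ^ κ * (R : ℝ) ^ 2 := by
    intro a ha b hb
    have h := hR i hi a (by rwa [hQ] at ha) b (by rwa [hQ] at hb)
    rw [← hR', hQr, hRr] at h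
    exact h
  rw [hP] at h0 hmass ⊢
  rw [← hQ, hQr]
  rw [hPr] at hmass
  have hquad := quad_eq (P := Q * R) (M := 2 * Q) (Nat.one_le_iff_ne_zero.mpr (by positivity))
    (by omega) Om
  have hB0 : 0 ≤ C₀ * (Q : ℝ) ^ κ * (R : ℝ) ^ 2 := by
    refine le_trans ?_ (hcell 0 (by omega) 0 (by omega))
    refine Finset.sum_nonneg fun y₁ hy₁ => Finset.sum_nonneg fun y₂ hy₂ => ?_
    rw [mem_range] at hy₁ hy₂
    have hRQ : R ≤ Q * R := Nat.le_mul_of_pos_left R (by omega)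
    refine h0 _ ?_ _ ?_ <;> omega
  -- the right side
  have hright : ∑ z₁ ∈ range (Q * R), ∑ z₂ ∈ range (Q * R), Om z₁ z₂ *
        ∑ w₁ ∈ range (Q * R), ∑ w₂ ∈ range (Q * R), Om w₁ w₂ *
          (fe (2 * Q) (((w₁ : ℝ) - z₁) / ((Q * R : ℕ) : ℝ)) *
            fe (2 * Q) (((w₂ : ℝ) - z₂) / ((Q * R : ℕ) : ℝ))) ≤
      169 / 16 * (C₀ * (Q : ℝ) ^ κ * (R : ℝ) ^ 2) * (C₀ * ((Q : ℝ) * R) ^ 2) := by
    calc _ ≤ ∑ z₁ ∈ range (Q * R), ∑ z₂ ∈ range (Q * R), Om z₁ z₂ *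
          (169 / 16 * (C₀ * (Q : ℝ) ^ κ * (R : ℝ) ^ 2)) := by
          refine Finset.sum_le_sum fun z₁ hz₁ => Finset.sum_le_sum fun z₂ hz₂ => ?_
          rw [mem_range] at hz₁ hz₂
          exact mul_le_mul_of_nonneg_left (row_le hQ1 hR1 h0 hcell hz₁ hz₂) (h0 z₁ hz₁ z₂ hz₂)
      _ = 169 / 16 * (C₀ * (Q : ℝ) ^ κ * (R : ℝ) ^ 2) *
          ∑ z₁ ∈ range (Q * R), ∑ z₂ ∈ range (Q * R), Om z₁ z₂ := by
          rw [Finset.mul_sum]
          refine Finset.sum_congr rfl fun z₁ _ => ?_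
          rw [Finset.mul_sum]
          refine Finset.sum_congr rfl fun z₂ _ => ?_
          ring
      _ ≤ _ := mul_le_mul_of_nonneg_left hmass (by positivity)
  -- the left side
  have hleft : 1 / 4 * ∑ m₁ ∈ Ioo (-(Q : ℕ) : ℤ) (Q : ℕ), ∑ m₂ ∈ Ioo (-(Q : ℕ) : ℤ) (Q : ℕ),
      ‖omd (Q * R) Om m₁ m₂‖ ^ 2 ≤
      ∑ m₁ ∈ Ioo (-((2 * Q : ℕ) : ℤ)) ((2 * Q : ℕ) : ℤ),
        ∑ m₂ ∈ Ioo (-((2 * Q : ℕ) : ℤ)) ((2 * Q : ℕ) : ℤ),
        (1 - |(m₁ : ℝ)| / ((2 * Q : ℕ) : ℝ)) * (1 - |(m₂ : ℝ)| / ((2 * Q : ℕ) : ℝ)) *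
          ‖omd (Q * R) Om m₁ m₂‖ ^ 2 := by
    have hsub : Ioo (-(Q : ℕ) : ℤ) (Q : ℕ) ⊆ Ioo (-((2 * Q : ℕ) : ℤ)) ((2 * Q : ℕ) : ℤ) := by
      intro n hn
      simp only [mem_Ioo] at hn ⊢
      omega
    have hw : ∀ m ∈ Ioo (-((2 * Q : ℕ) : ℤ)) ((2 * Q : ℕ) : ℤ),
        0 ≤ 1 - |(m : ℝ)| / ((2 * Q : ℕ) : ℝ) := by
      intro m hm
      simp only [mem_Ioo] at hm
      have h1 : |m| < ((2 * Q : ℕ) : ℤ) := abs_lt.mpr hm
      have h2 : |(m : ℝ)| < ((2 * Q : ℕ) : ℝ) := by exact_mod_cast h1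
      have h3 : |(m : ℝ)| / ((2 * Q : ℕ) : ℝ) ≤ 1 := by
        rw [div_le_one (by positivity)]
        exact h2.le
      linarith
    have hw2 : ∀ m ∈ Ioo (-(Q : ℕ) : ℤ) (Q : ℕ), 1 / 2 ≤ 1 - |(m : ℝ)| / ((2 * Q : ℕ) : ℝ) := by
      intro m hm
      simp only [mem_Ioo] at hm
      have h1 : |m| < (Q : ℤ) := abs_lt.mpr hm
      have h2 : |(m : ℝ)| < (Q : ℝ) := by exact_mod_cast h1
      have h3 : |(m : ℝ)| / ((2 * Q : ℕ) : ℝ) ≤ 1 / 2 := by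
        rw [div_le_iff₀ (by positivity)]
        push_cast
        linarith
      linarith
    rw [Finset.mul_sum]
    refine le_trans (Finset.sum_le_sum fun m₁ hm₁ => ?_)
      (Finset.sum_le_sum_of_subset_of_nonneg hsub fun m₁ hm₁ _ => ?_)
    · rw [Finset.mul_sum]
      refine le_trans (Finset.sum_le_sum fun m₂ hm₂ => ?_)
        (Finset.sum_le_sum_of_subset_of_nonneg hsub fun m₂ hm₂ _ => ?_)
      · refine mul_le_mul_of_nonneg_right ?_ (by positivity)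
        calc (1 : ℝ) / 4 = 1 / 2 * (1 / 2) := by norm_num
          _ ≤ _ := mul_le_mul (hw2 m₁ hm₁) (hw2 m₂ hm₂) (by norm_num) (hw m₁ (hsub hm₁))
      · exact mul_nonneg (mul_nonneg (hw m₁ (hsub hm₁)) (hw m₂ hm₂)) (by positivity)
    · refine Finset.sum_nonneg fun m₂ hm₂ => ?_
      exact mul_nonneg (mul_nonneg (hw m₁ hm₁) (hw m₂ hm₂)) (by positivity)
  rw [hquad] at hleft
  have hfin : ((2 * Q : ℕ) : ℝ) ^ 2 / ((Q * R : ℕ) : ℝ) ^ 4 *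
      (169 / 16 * (C₀ * (Q : ℝ) ^ κ * (R : ℝ) ^ 2) * (C₀ * ((Q : ℝ) * R) ^ 2)) =
      169 / 4 * (C₀ ^ 2 * (Q : ℝ) ^ κ) := by
    push_cast
    field_simp
    ring
  have h5 := hleft.trans (mul_le_mul_of_nonneg_left hright (by positivity))
  rw [hfin] at h5
  have h6 : 0 ≤ C₀ ^ 2 * (Q : ℝ) ^ κ := by positivity
  linarith

end Pool.K2
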