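import Pool.Agent.H42.K2.Fej

/-!
# MP_1f2761, `k = 2`: Fejer cells (section 2 of the analysis page, (2.4), (2.5))
-/

set_option autoImplicit false

namespace Pool.K2

open Finset Complex

theorem c4_pos : 0 < c4 := by
  unfold c4
  have := Real.pi_pos
  positivity

theorem c4_lt : c4 < 6.1 := by
  unfold c4
  have h1 := Real.pi_lt_d4
  have h2 := Real.pi_pos
  have h3 : Real.pi ^ 2 < 9.8697 := by nlinarith
  have h4 : 0 ≤ Real.pi ^ 2 / 4 := by positivity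
  nlinarith

/-! ### (2.4) -/

theorem nn_le_of {x : ℝ} (n : ℤ) : nn x ≤ |x - n| := round_le x n

theorem cell_fe {P : ℕ} (hP : 1 ≤ P) (x : ℝ) :
    4 / Real.pi ^ 2 ≤ fe P (x - (((⌊(P : ℝ) * x⌋ % (P : ℤ)).toNat : ℝ) + 1 / 2) / P) := by
  have hP' : (0 : ℝ) < P := by exact_mod_cast hP
  have hPz : (0 : ℤ) < P := by exact_mod_cast hP
  refine le_fe hP ?_
  set f := ⌊(P : ℝ) * x⌋ with hf
  have h0 : 0 ≤ f % (P : ℤ) := Int.emod_nonneg _ hPz.ne'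
  have h1 : (((f % (P : ℤ)).toNat : ℕ) : ℝ) = (f : ℝ) - P * ((f / (P : ℤ) : ℤ) : ℝ) := by
    have e1 : (((f % (P : ℤ)).toNat : ℕ) : ℤ) = f - P * (f / (P : ℤ)) := by
      rw [Int.toNat_of_nonneg h0, Int.emod_def]
    have e2 : ((((f % (P : ℤ)).toNat : ℕ) : ℤ) : ℝ) = ((f - P * (f / (P : ℤ)) : ℤ) : ℝ) := by
      rw [e1]
    push_cast at e2
    exact e2
  rw [h1]
  have h2 := nn_le_of (x := x - (((f : ℝ) - P * ((f / (P : ℤ) : ℤ) : ℝ)) + 1 / 2) / P)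
    (f / (P : ℤ))
  have h3 : x - (((f : ℝ) - P * ((f / (P : ℤ) : ℤ) : ℝ)) + 1 / 2) / P - ((f / (P : ℤ) : ℤ) : ℝ) =
      (P * x - f - 1 / 2) / P := by
    field_simp
    ring
  rw [h3, abs_div, abs_of_pos hP'] at h2
  have h4 : |(P : ℝ) * x - f - 1 / 2| ≤ 1 / 2 := by
    have h5 := Int.floor_le ((P : ℝ) * x)
    have h6 := Int.lt_floor_add_one ((P : ℝ) * x)
    rw [← hf] at h5 h6
    rw [abs_le]
    constructor <;> linarith
  calc 2 * (P : ℝ) * nn _ ≤ 2 * P * (|(P : ℝ) * x - f - 1 / 2| / P) := by gcongr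
    _ = 2 * |(P : ℝ) * x - f - 1 / 2| := by field_simp
    _ ≤ 1 := by linarith

/-- (2.4). -/
theorem omT_ge {P : ℕ} (hP : 1 ≤ P) (Om : ℕ → ℕ → ℝ) (h0 : ∀ z₁ < P, ∀ z₂ < P, 0 ≤ Om z₁ z₂)
    (x₁ x₂ : ℝ) :
    Om (⌊(P : ℝ) * x₁⌋ % (P : ℤ)).toNat (⌊(P : ℝ) * x₂⌋ % (P : ℤ)).toNat ≤ omT P Om x₁ x₂ := by
  have hPz : (0 : ℤ) < P := by exact_mod_cast hP
  have hlt : ∀ f : ℤ, (f % (P : ℤ)).toNat < P := by
    intro f
    have h1 := Int.emod_lt_of_pos f hPz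
    have h2 := Int.emod_nonneg f hPz.ne'
    omega
  set w₁ := (⌊(P : ℝ) * x₁⌋ % (P : ℤ)).toNat with hw₁
  set w₂ := (⌊(P : ℝ) * x₂⌋ % (P : ℤ)).toNat with hw₂
  have hw₁' : w₁ < P := hlt _
  have hw₂' : w₂ < P := hlt _
  have hpi := Real.pi_pos
  have h1 := cell_fe hP x₁
  have h2 := cell_fe hP x₂
  rw [← hw₁] at h1
  rw [← hw₂] at h2
  unfold omT
  have h3 : Om w₁ w₂ * (fe P (x₁ - ((w₁ : ℝ) + 1 / 2) / P) * fe P (x₂ - ((w₂ : ℝ) + 1 / 2) / P)) ≤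
      ∑ z₁ ∈ range P, ∑ z₂ ∈ range P,
        Om z₁ z₂ * (fe P (x₁ - ((z₁ : ℝ) + 1 / 2) / P) * fe P (x₂ - ((z₂ : ℝ) + 1 / 2) / P)) := by
    have hn : ∀ z₁ ∈ range P, ∀ z₂ ∈ range P, 0 ≤ Om z₁ z₂ *
        (fe P (x₁ - ((z₁ : ℝ) + 1 / 2) / P) * fe P (x₂ - ((z₂ : ℝ) + 1 / 2) / P)) := by
      intro z₁ hz₁ z₂ hz₂
      exact mul_nonneg (h0 z₁ (mem_range.mp hz₁) z₂ (mem_range.mp hz₂))
        (mul_nonneg (fe_nonneg _ _) (fe_nonneg _ _))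
    refine le_trans ?_ (Finset.single_le_sum (f := fun z₁ : ℕ => ∑ z₂ ∈ range P, Om z₁ z₂ *
      (fe P (x₁ - ((z₁ : ℝ) + 1 / 2) / P) * fe P (x₂ - ((z₂ : ℝ) + 1 / 2) / P)))
      (fun z₁ hz₁ => Finset.sum_nonneg (hn z₁ hz₁)) (mem_range.mpr hw₁'))
    exact Finset.single_le_sum (f := fun z₂ : ℕ => Om w₁ z₂ *
      (fe P (x₁ - ((w₁ : ℝ) + 1 / 2) / P) * fe P (x₂ - ((z₂ : ℝ) + 1 / 2) / P)))
      (fun z₂ hz₂ => hn w₁ (mem_range.mpr hw₁') z₂ hz₂) (mem_range.mpr hw₂')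
  have h4 : (4 / Real.pi ^ 2) * (4 / Real.pi ^ 2) ≤
      fe P (x₁ - ((w₁ : ℝ) + 1 / 2) / P) * fe P (x₂ - ((w₂ : ℝ) + 1 / 2) / P) :=
    mul_le_mul h1 h2 (by positivity) (fe_nonneg _ _)
  have h5 : c4 * ((4 / Real.pi ^ 2) * (4 / Real.pi ^ 2)) = 1 := by
    unfold c4
    field_simp
  calc Om w₁ w₂ = c4 * (Om w₁ w₂ * ((4 / Real.pi ^ 2) * (4 / Real.pi ^ 2))) := by
        linear_combination (-Om w₁ w₂) * h5
    _ ≤ c4 * (Om w₁ w₂ *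
        (fe P (x₁ - ((w₁ : ℝ) + 1 / 2) / P) * fe P (x₂ - ((w₂ : ℝ) + 1 / 2) / P))) :=
        mul_le_mul_of_nonneg_left (mul_le_mul_of_nonneg_left h4 (h0 w₁ hw₁' w₂ hw₂')) c4_pos.le
    _ ≤ _ := mul_le_mul_of_nonneg_left h3 c4_pos.le

/-! ### (2.5) -/

/-- The pairs of `range P` by their difference. -/
theorem sum_diff (g : ℤ → ℂ) (P : ℕ) :
    ∑ j ∈ range P, ∑ k ∈ range P, g ((j : ℤ) - k) =
      ∑ n ∈ Ioo (-(P : ℤ)) P, (((P : ℤ) - |n| : ℤ) : ℂ) * g n := by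
  induction P with
  | zero => simp
  | succ P ih =>
    have h1 : ∑ j ∈ range (P + 1), ∑ k ∈ range (P + 1), g ((j : ℤ) - k) =
        ∑ j ∈ range P, ∑ k ∈ range P, g ((j : ℤ) - k) +
          (∑ j ∈ range P, g ((j : ℤ) - P) + ∑ k ∈ range (P + 1), g ((P : ℤ) - k)) := by
      rw [Finset.sum_range_succ]
      have : ∀ j ∈ range P, ∑ k ∈ range (P + 1), g ((j : ℤ) - k) =
          ∑ k ∈ range P, g ((j : ℤ) - k) + g ((j : ℤ) - P) := fun j _ => Finset.sum_range_succ _ _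
      rw [Finset.sum_congr rfl this, Finset.sum_add_distrib]
      ring
    have h2 : ∑ j ∈ range P, g ((j : ℤ) - P) = ∑ n ∈ Ioo (-((P : ℤ) + 1)) 0, g n := by
      refine Finset.sum_nbij' (fun j : ℕ => (j : ℤ) - P) (fun n : ℤ => (n + P).toNat) ?_ ?_ ?_ ?_ ?_
      · intro j hj
        simp only [mem_range, mem_Ioo] at hj ⊢
        omega
      · intro n hn
        simp only [mem_range, mem_Ioo] at hn ⊢
        omega
      · intro j hj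
        simp
      · intro n hn
        simp only [mem_Ioo] at hn
        omega
      · intro j hj
        rfl
    have h3 : ∑ k ∈ range (P + 1), g ((P : ℤ) - k) = ∑ n ∈ Ico 0 ((P : ℤ) + 1), g n := by
      refine Finset.sum_nbij' (fun k : ℕ => (P : ℤ) - k) (fun n : ℤ => ((P : ℤ) - n).toNat)
        ?_ ?_ ?_ ?_ ?_
      · intro j hj
        simp only [mem_range, mem_Ico] at hj ⊢
        omega
      · intro n hn
        simp only [mem_range, mem_Ico] at hn ⊢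
        omega
      · intro j hj
        simp
      · intro n hn
        simp only [mem_Ico] at hn
        omega
      · intro j hj
        rfl
    have h4 : ∑ n ∈ Ioo (-((P : ℤ) + 1)) 0, g n + ∑ n ∈ Ico 0 ((P : ℤ) + 1), g n =
        ∑ n ∈ Ioo (-((P : ℤ) + 1)) ((P : ℤ) + 1), g n := by
      have hd : Disjoint (Ioo (-((P : ℤ) + 1)) 0) (Ico 0 ((P : ℤ) + 1)) := by
        rw [Finset.disjoint_left]
        intro n h5 h6
        simp only [mem_Ioo, mem_Ico] at h5 h6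
        omega
      rw [← Finset.sum_union hd]
      refine Finset.sum_congr ?_ fun _ _ => rfl
      ext n
      simp only [mem_union, mem_Ioo, mem_Ico]
      omega
    have h5 : ∑ n ∈ Ioo (-(P : ℤ)) P, (((P : ℤ) - |n| : ℤ) : ℂ) * g n =
        ∑ n ∈ Ioo (-((P : ℤ) + 1)) ((P : ℤ) + 1), (((P : ℤ) - |n| : ℤ) : ℂ) * g n := by
      refine Finset.sum_subset ?_ ?_
      · intro n hn
        simp only [mem_Ioo] at hn ⊢
        omega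
      · intro n hn hn'
        simp only [mem_Ioo] at hn hn'
        have : (P : ℤ) - |n| = 0 := by
          rcases abs_cases n with ⟨h, _⟩ | ⟨h, _⟩ <;> rw [h] <;> omega
        rw [this]
        simp
    rw [h1, ih, h2, h3, h4, h5, ← Finset.sum_add_distrib]
    push_cast
    refine Finset.sum_congr rfl fun n _ => ?_
    ring

/-- The expansion of the Fejer kernel. -/
theorem fe_eq {P : ℕ} (hP : 1 ≤ P) (x : ℝ) :
    (fe P x : ℂ) = (∑ n ∈ Ioo (-(P : ℤ)) P, ((1 - |(n : ℝ)| / P : ℝ) : ℂ) * ex (n * x)) / P := by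
  have hP' : (P : ℂ) ≠ 0 := by
    have : P ≠ 0 := by omega
    exact_mod_cast this
  have h1 := sum_diff (fun n : ℤ => ex (n * x)) P
  have h2 : ∑ j ∈ range P, ∑ k ∈ range P, ex ((((j : ℤ) - k : ℤ) : ℝ) * x) =
      ((‖∑ j ∈ range P, ex (j * x)‖ ^ 2 : ℝ) : ℂ) := by
    have e1 : ((‖∑ j ∈ range P, ex (j * x)‖ ^ 2 : ℝ) : ℂ) =
        (∑ j ∈ range P, ex (j * x)) * (starRingEnd ℂ) (∑ j ∈ range P, ex (j * x)) := by
      rw [Complex.mul_conj, Complex.normSq_eq_norm_sq]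
    rw [e1, map_sum, Finset.sum_mul_sum]
    refine Finset.sum_congr rfl fun j _ => Finset.sum_congr rfl fun k _ => ?_
    rw [← ex_neg, ← ex_add]
    congr 1
    push_cast
    ring
  have h3 : ((fe P x : ℝ) : ℂ) = (∑ n ∈ Ioo (-(P : ℤ)) P, (((P : ℤ) - |n| : ℤ) : ℂ) *
      ex (n * x)) / (P : ℂ) ^ 2 := by
    rw [← h1, h2]
    unfold fe
    push_cast
    rfl
  rw [h3, div_eq_div_iff (pow_ne_zero 2 hP') hP', Finset.sum_mul, Finset.sum_mul]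
  refine Finset.sum_congr rfl fun n _ => ?_
  have e : (((P : ℤ) - |n| : ℤ) : ℂ) = P * ((1 - |(n : ℝ)| / P : ℝ) : ℂ) := by
    have e' : (((|n| : ℤ) : ℝ) : ℂ) = ((|(n : ℝ)| : ℝ) : ℂ) := by rw [Int.cast_abs]
    rw [Complex.ofReal_intCast] at e'
    rw [Complex.ofReal_sub, Complex.ofReal_div, ← e']
    push_cast
    field_simp
  rw [e]
  ring

/-- (2.5): the expansion of `omT`. -/
theorem omT_eq {P : ℕ} (hP : 1 ≤ P) (Om : ℕ → ℕ → ℝ) (x₁ x₂ : ℝ) :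
    (omT P Om x₁ x₂ : ℂ) = ∑ m₁ ∈ Ioo (-(P : ℤ)) P, ∑ m₂ ∈ Ioo (-(P : ℤ)) P,
      omh P Om m₁ m₂ * ex (m₁ * x₁ + m₂ * x₂) := by
  have hP' : (P : ℂ) ≠ 0 := by
    have : P ≠ 0 := by omega
    exact_mod_cast this
  have hPr : (P : ℝ) ≠ 0 := by
    have : P ≠ 0 := by omega
    exact_mod_cast this
  have h1 : ∀ z₁ z₂ : ℕ, ((fe P (x₁ - ((z₁ : ℝ) + 1 / 2) / P) *
      fe P (x₂ - ((z₂ : ℝ) + 1 / 2) / P) : ℝ) : ℂ) =
      ∑ m₁ ∈ Ioo (-(P : ℤ)) P, ∑ m₂ ∈ Ioo (-(P : ℤ)) P,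
        (((1 - |(m₁ : ℝ)| / P) * (1 - |(m₂ : ℝ)| / P) : ℝ) : ℂ) *
          (ex (-((m₁ * z₁ + m₂ * z₂) / P)) * ex (-((m₁ + m₂) / (2 * P))) *
            ex (m₁ * x₁ + m₂ * x₂)) / (P : ℂ) ^ 2 := by
    intro z₁ z₂
    rw [Complex.ofReal_mul, fe_eq hP, fe_eq hP, div_mul_div_comm, Finset.sum_mul_sum,
      Finset.sum_div]
    refine Finset.sum_congr rfl fun m₁ _ => ?_
    rw [Finset.sum_div]
    refine Finset.sum_congr rfl fun m₂ _ => ?_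
    rw [← ex_add, ← ex_add]
    have e1 : (-(((m₁ : ℝ) * z₁ + m₂ * z₂) / P) + -(((m₁ : ℝ) + m₂) / (2 * P)) +
        (m₁ * x₁ + m₂ * x₂)) = m₁ * (x₁ - ((z₁ : ℝ) + 1 / 2) / P) +
          m₂ * (x₂ - ((z₂ : ℝ) + 1 / 2) / P) := by
      field_simp
      ring
    rw [e1, ex_add]
    push_cast
    ring
  unfold omT
  have h2 : ((c4 * ∑ z₁ ∈ range P, ∑ z₂ ∈ range P,
      Om z₁ z₂ * (fe P (x₁ - ((z₁ : ℝ) + 1 / 2) / P) * fe P (x₂ - ((z₂ : ℝ) + 1 / 2) / P)) : ℝ) :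
        ℂ) = ∑ z₁ ∈ range P, ∑ z₂ ∈ range P, ∑ m₁ ∈ Ioo (-(P : ℤ)) P, ∑ m₂ ∈ Ioo (-(P : ℤ)) P,
          (c4 : ℂ) * ((Om z₁ z₂ : ℂ) *
        ((((1 - |(m₁ : ℝ)| / P) * (1 - |(m₂ : ℝ)| / P) : ℝ) : ℂ) *
          (ex (-((m₁ * z₁ + m₂ * z₂) / P)) * ex (-((m₁ + m₂) / (2 * P))) *
            ex (m₁ * x₁ + m₂ * x₂)) / (P : ℂ) ^ 2)) := by
    rw [Complex.ofReal_mul, Complex.ofReal_sum, Finset.mul_sum]
    refine Finset.sum_congr rfl fun z₁ _ => ?_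
    rw [Complex.ofReal_sum, Finset.mul_sum]
    refine Finset.sum_congr rfl fun z₂ _ => ?_
    rw [Complex.ofReal_mul, h1, Finset.mul_sum, Finset.mul_sum]
    refine Finset.sum_congr rfl fun m₁ _ => ?_
    rw [Finset.mul_sum, Finset.mul_sum]
  rw [h2]
  have h3 : ∀ m₁ m₂ : ℤ, omh P Om m₁ m₂ * ex (m₁ * x₁ + m₂ * x₂) =
      ∑ z₁ ∈ range P, ∑ z₂ ∈ range P, (c4 : ℂ) * ((Om z₁ z₂ : ℂ) *
        ((((1 - |(m₁ : ℝ)| / P) * (1 - |(m₂ : ℝ)| / P) : ℝ) : ℂ) *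
          (ex (-((m₁ * z₁ + m₂ * z₂) / P)) * ex (-((m₁ + m₂) / (2 * P))) *
            ex (m₁ * x₁ + m₂ * x₂)) / (P : ℂ) ^ 2)) := by
    intro m₁ m₂
    unfold omh omd
    rw [Finset.sum_div, Finset.mul_sum, Finset.sum_mul, Finset.sum_mul, Finset.sum_mul]
    refine Finset.sum_congr rfl fun z₁ _ => ?_
    rw [Finset.sum_div, Finset.mul_sum, Finset.sum_mul, Finset.sum_mul, Finset.sum_mul]
    refine Finset.sum_congr rfl fun z₂ _ => ?_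
    ring
  simp only [h3]
  -- exchange of the sums
  rw [Finset.sum_congr rfl fun z₁ _ => Finset.sum_comm]
  rw [Finset.sum_comm]
  refine Finset.sum_congr rfl fun m₁ _ => ?_
  rw [Finset.sum_congr rfl fun z₁ _ => Finset.sum_comm]
  rw [Finset.sum_comm]

end Pool.K2
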