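import Pool.Agent.H42.K2.Defs

/-!
# MP_1f2761, `k = 2`: the Fejer kernel (section 2 of the analysis page, (2.1) - (2.3))
-/

set_option autoImplicit false

namespace Pool.K2

open Finset Complex

theorem ex_add (x y : ℝ) : ex (x + y) = ex x * ex y := by
  unfold ex
  rw [← Complex.exp_add]
  push_cast
  ring_nf

theorem ex_zero : ex 0 = 1 := by simp [ex]

theorem ex_neg (x : ℝ) : ex (-x) = (starRingEnd ℂ) (ex x) := by
  unfold ex
  rw [← Complex.exp_conj]
  congr 1
  simp only [map_mul, Complex.conj_ofReal, Complex.conj_I, map_ofNat]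
  push_cast
  ring

theorem ex_norm (x : ℝ) : ‖ex x‖ = 1 := by
  unfold ex
  rw [show (2 * Real.pi * x * Complex.I : ℂ) = ((2 * Real.pi * x : ℝ) : ℂ) * Complex.I by
    push_cast; ring]
  exact Complex.norm_exp_ofReal_mul_I _

theorem ex_int (n : ℤ) : ex n = 1 := by
  unfold ex
  rw [show (2 * Real.pi * ((n : ℤ) : ℝ) * Complex.I : ℂ) = (n : ℂ) * (2 * Real.pi * Complex.I) by
    push_cast; ring]
  exact Complex.exp_int_mul_two_pi_mul_I n

theorem ex_add_int (x : ℝ) (n : ℤ) : ex (x + n) = ex x := by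
  rw [ex_add, ex_int, mul_one]

theorem ex_nat_mul (j : ℕ) (x : ℝ) : ex (j * x) = ex x ^ j := by
  unfold ex
  rw [← Complex.exp_nat_mul]
  congr 1
  push_cast
  ring

theorem fe_nonneg (P : ℕ) (x : ℝ) : 0 ≤ fe P x := by
  unfold fe
  positivity

theorem fe_le_one (P : ℕ) (x : ℝ) : fe P x ≤ 1 := by
  unfold fe
  rcases Nat.eq_zero_or_pos P with h | h
  · subst h
    simp
  · rw [div_le_one (by positivity)]
    refine pow_le_pow_left₀ (norm_nonneg _) ?_ 2
    refine (norm_sum_le _ _).trans ?_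
    simp [ex_norm]

theorem fe_add_int (P : ℕ) (x : ℝ) (n : ℤ) : fe P (x + n) = fe P x := by
  unfold fe
  congr 3
  refine Finset.sum_congr rfl fun j _ => ?_
  rw [show (j : ℝ) * (x + n) = j * x + ((j * n : ℤ) : ℝ) by push_cast; ring, ex_add_int]

theorem fe_round (P : ℕ) (x : ℝ) : fe P (x - round x) = fe P x := by
  have := fe_add_int P (x - round x) (round x)
  rw [← this, sub_add_cancel]

theorem norm_ex_sub_one (x : ℝ) : ‖ex x - 1‖ = 2 * |Real.sin (Real.pi * x)| := by
  unfold ex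
  rw [show (2 * Real.pi * x * Complex.I : ℂ) = Complex.I * ((2 * (Real.pi * x) : ℝ) : ℂ) by
    push_cast; ring, Complex.norm_exp_I_mul_ofReal_sub_one]
  rw [norm_mul, Real.norm_eq_abs, Real.norm_eq_abs, mul_div_cancel_left₀ _ (two_ne_zero' ℝ)]
  norm_num

theorem sum_ex_mul (P : ℕ) (x : ℝ) :
    ‖∑ j ∈ range P, ex (j * x)‖ * |Real.sin (Real.pi * x)| = |Real.sin (Real.pi * (P * x))| := by
  have h1 : (∑ j ∈ range P, ex (j * x)) * (ex x - 1) = ex (P * x) - 1 := by
    simp only [ex_nat_mul]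
    exact geom_sum_mul (ex x) P
  have h2 := congrArg (fun z : ℂ => ‖z‖) h1
  simp only [norm_mul, norm_ex_sub_one] at h2
  linarith

/-- (2.3): `F_P(x) ≤ (2 P ‖x‖)⁻²`. -/
theorem fe_le (P : ℕ) (x : ℝ) : fe P x * (2 * P * nn x) ^ 2 ≤ 1 := by
  rw [← fe_round]
  set y := x - round x with hy
  have hy1 : |y| ≤ 1 / 2 := abs_sub_round x
  have hn : nn x = |y| := rfl
  rw [hn]
  rcases Nat.eq_zero_or_pos P with h | h
  · subst h
    simp
  have hP : (0 : ℝ) < P := by exact_mod_cast h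
  have h1 := sum_ex_mul P y
  have h2 : 2 * |y| ≤ |Real.sin (Real.pi * y)| := by
    have h3 : |Real.sin (Real.pi * y)| = Real.sin (Real.pi * |y|) := by
      rcases abs_cases y with ⟨h4, h5⟩ | ⟨h4, h5⟩
      · rw [h4]
        refine abs_of_nonneg (Real.sin_nonneg_of_nonneg_of_le_pi (by positivity) ?_)
        rw [h4] at hy1
        nlinarith [Real.pi_pos]
      · rw [h4, mul_neg, Real.sin_neg]
        refine abs_of_nonpos ?_
        have : 0 ≤ Real.sin (Real.pi * (-y)) := by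
          refine Real.sin_nonneg_of_nonneg_of_le_pi ?_ ?_
          · have : 0 ≤ -y := by linarith
            positivity
          · rw [h4] at hy1
            nlinarith [Real.pi_pos]
        rw [mul_neg, Real.sin_neg] at this
        linarith
    rw [h3]
    have h6 := Real.mul_le_sin (x := Real.pi * |y|) (by positivity)
      (by nlinarith [Real.pi_pos, abs_nonneg y])
    have h7 : 2 / Real.pi * (Real.pi * |y|) = 2 * |y| := by
      field_simp
    linarith
  have h3 : |Real.sin (Real.pi * (P * y))| ≤ 1 := Real.abs_sin_le_one _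
  have h4 : ‖∑ j ∈ range P, ex (j * y)‖ * (2 * |y|) ≤ 1 := by
    calc ‖∑ j ∈ range P, ex (j * y)‖ * (2 * |y|)
        ≤ ‖∑ j ∈ range P, ex (j * y)‖ * |Real.sin (Real.pi * y)| :=
          mul_le_mul_of_nonneg_left h2 (norm_nonneg _)
      _ ≤ 1 := by rw [h1]; exact h3
  unfold fe
  have h5 : ‖∑ j ∈ range P, ex (j * y)‖ ^ 2 / (P : ℝ) ^ 2 * (2 * P * |y|) ^ 2 =
      (‖∑ j ∈ range P, ex (j * y)‖ * (2 * |y|)) ^ 2 := by
    generalize ‖∑ j ∈ range P, ex (j * y)‖ = B
    field_simp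
  rw [h5]
  have h6 : 0 ≤ ‖∑ j ∈ range P, ex (j * y)‖ * (2 * |y|) := by positivity
  calc (‖∑ j ∈ range P, ex (j * y)‖ * (2 * |y|)) ^ 2 ≤ 1 ^ 2 := pow_le_pow_left₀ h6 h4 2
    _ = 1 := one_pow 2

/-- (2.2): `F_P(x) ≥ 4/π²` if `‖x‖ ≤ 1/(2P)`. -/
theorem le_fe {P : ℕ} (hP : 1 ≤ P) {x : ℝ} (hx : 2 * P * nn x ≤ 1) :
    4 / Real.pi ^ 2 ≤ fe P x := by
  rw [← fe_round]
  set y := x - round x with hy
  have hn : nn x = |y| := rfl
  rw [hn] at hx
  have hP' : (1 : ℝ) ≤ P := by exact_mod_cast hP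
  have hpi := Real.pi_pos
  have hpi4 : 4 / Real.pi ^ 2 ≤ 1 := by
    rw [div_le_one (by positivity)]
    nlinarith [Real.pi_gt_three]
  rcases eq_or_ne y 0 with h0 | h0
  · rw [h0]
    unfold fe
    simp only [mul_zero, ex_zero, sum_const, card_range, nsmul_eq_mul, mul_one,
      Complex.norm_natCast]
    rw [div_self (by positivity)]
    exact hpi4
  have hy0 : 0 < |y| := abs_pos.mpr h0
  have h1 := sum_ex_mul P y
  have h2 : |Real.sin (Real.pi * y)| ≤ Real.pi * |y| := by
    have := Real.abs_sin_le_abs (x := Real.pi * y)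
    rwa [abs_mul, abs_of_pos hpi] at this
  have h3 : 2 * (P * |y|) ≤ |Real.sin (Real.pi * (P * y))| := by
    have h4 : |Real.sin (Real.pi * (P * y))| = Real.sin (Real.pi * (P * |y|)) := by
      rcases abs_cases y with ⟨h4, h5⟩ | ⟨h4, h5⟩
      · rw [h4] at hx ⊢
        refine abs_of_nonneg (Real.sin_nonneg_of_nonneg_of_le_pi (by positivity) ?_)
        nlinarith
      · rw [h4] at hx ⊢
        rw [show Real.pi * (P * -y) = -(Real.pi * (P * y)) by ring, Real.sin_neg]
        refine abs_of_nonpos ?_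
        have h6 : 0 ≤ -y := by linarith
        have : 0 ≤ Real.sin (Real.pi * (P * (-y))) := by
          refine Real.sin_nonneg_of_nonneg_of_le_pi (by positivity) ?_
          nlinarith
        rw [show Real.pi * (P * -y) = -(Real.pi * (P * y)) by ring, Real.sin_neg] at this
        linarith
    rw [h4]
    have h6 := Real.mul_le_sin (x := Real.pi * (P * |y|)) (by positivity) (by nlinarith)
    have h7 : 2 / Real.pi * (Real.pi * (P * |y|)) = 2 * (P * |y|) := by
      field_simp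
    linarith
  have h4 : 2 / Real.pi * P ≤ ‖∑ j ∈ range P, ex (j * y)‖ := by
    have h5 : 2 * (P * |y|) ≤ ‖∑ j ∈ range P, ex (j * y)‖ * (Real.pi * |y|) := by
      refine h3.trans ?_
      rw [← h1]
      exact mul_le_mul_of_nonneg_left h2 (norm_nonneg _)
    rw [div_mul_eq_mul_div, div_le_iff₀ hpi]
    have h6 : 2 * P * |y| ≤ ‖∑ j ∈ range P, ex (j * y)‖ * Real.pi * |y| := by linarith
    exact le_of_mul_le_mul_right h6 hy0
  unfold fe
  rw [div_le_div_iff₀ (by positivity) (by positivity)]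
  have h5 : 0 ≤ 2 / Real.pi * (P : ℝ) := by positivity
  have h6 := pow_le_pow_left₀ h5 h4 2
  have h7 : (2 / Real.pi * (P : ℝ)) ^ 2 * Real.pi ^ 2 = 4 * P ^ 2 := by
    field_simp
    norm_num
  rw [← h7]
  exact mul_le_mul_of_nonneg_right h6 (by positivity)

end Pool.K2
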